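import Pool.Agent.Helper62.UT.Scl
import Pool.Agent.Helper31.EC.Sep
import Pool.Agent.Helper82.TP.Sheet

/-! HEIS: the way back from the truncated space. A sheet label in fresh form over the space of depth `c n` is a sheet
label in fresh form over the space of depth `n`, with levels multiplied by `c`. -/

set_option autoImplicit false

namespace Pool.Agent.Helper82.HS

open Finset Filter Topology Pool.Agent.Helper69.RK Pool.Agent.Helper31.EC

noncomputable section

open Sp QS Pool.Agent.Helper82.TP Pool.Agent.Helper62.UT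

variable {S : Sp} (c : ℝ) (hc : 0 < c)

theorem pscl_qu {T : Sp} (p : Pj T S) (h1 : 1 ≤ c) (f : QS (scl S c hc)) :
    qu c hc h1 ((pscl c hc p).qs f) = p.qs (qu c hc h1 f) := by
  obtain ⟨f, rfl⟩ := QS.mk_surj f
  rfl

/-- lift of a function with known digits -/
theorem exists_lift1 (h1 : c ≤ 1) {V : S.L} (a : QS S) (ha : dg a 1 ≤ V) :
    ∃ b : QS (scl S c⁻¹ (inv_pos.mpr hc)), qu c⁻¹ (inv_pos.mpr hc) ((one_le_inv₀ hc).mpr h1) b = a ∧
      dg b 1 ≤ sclL c⁻¹ (inv_pos.mpr hc) V := by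
  have hi := (one_le_inv₀ hc).mpr h1
  have e1 : (1 : ℝ) / c⁻¹ = c := by rw [one_div, inv_inv]
  obtain ⟨f0, hf0⟩ := qu_surj c⁻¹ (inv_pos.mpr hc) hi a
  have h2 := qu_dg c⁻¹ (inv_pos.mpr hc) hi f0 (r := 1) le_rfl
  rw [hf0, e1] at h2
  obtain ⟨f1, k1, k2⟩ := exists_round f0 hc.le h1
  refine ⟨f1, ?_, ?_⟩
  · have h3 : qu c⁻¹ (inv_pos.mpr hc) hi (f0 - f1) ∈ QS.Id S 1 := by
      rw [qu_mem_Id c⁻¹ (inv_pos.mpr hc) hi le_rfl, e1]
      exact k2
    rw [mem_Id_one, map_sub, hf0, sub_eq_zero] at h3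
    exact h3.symm
  · refine k1.trans ?_
    rw [← h2]
    exact sclL_mono _ _ ha

/-- lift of a polynomial with known coefficients -/
theorem exists_lift (h1 : c ≤ 1) {σ : Type} {V : S.L} {g : MvPolynomial σ (QS S)} (hg : g ∈ PK V) {D : ℕ}
    (hD : g.totalDegree ≤ D) :
    ∃ g' : MvPolynomial σ (QS (scl S c⁻¹ (inv_pos.mpr hc))),
      MvPolynomial.map (qu c⁻¹ (inv_pos.mpr hc) ((one_le_inv₀ hc).mpr h1)) g' = g ∧
      g' ∈ PK (sclL c⁻¹ (inv_pos.mpr hc) V) ∧ g'.totalDegree ≤ D := by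
  classical
  choose L hL1 hL2 using fun m => exists_lift1 c hc h1 (V := V) (g.coeff m) (hg m)
  refine ⟨∑ m ∈ g.support, MvPolynomial.monomial m (L m), ?_, ?_, ?_⟩
  · rw [map_sum]
    conv_rhs => rw [g.as_sum]
    refine Finset.sum_congr rfl fun m _ => ?_
    rw [MvPolynomial.map_monomial, hL1]
  · refine (PK _).sum_mem fun m _ => fun m' => ?_
    rw [MvPolynomial.coeff_monomial]
    split_ifs with h
    · exact hL2 m
    · rw [← MvPolynomial.coeff_zero (R := QS (scl S c⁻¹ (inv_pos.mpr hc))) m']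
      exact (PK (sclL c⁻¹ (inv_pos.mpr hc) V)).zero_mem m'
  · refine (MvPolynomial.totalDegree_finsetSum _ _).trans (Finset.sup_le fun m hm => ?_)
    exact ((MvPolynomial.totalDegree_monomial_le _ _).trans (MvPolynomial.le_totalDegree hm)).trans hD

theorem join_sp {W : Sp} (p : Pj W (scl S c hc)) {α : ℕ → Type} (U : ∀ k, (S.F k).Ω → α k) :
    ((pun c hc p).join U).sp = scl ((p.join (S := scl S c hc) U).sp) c⁻¹ (inv_pos.mpr hc) := rfl

/-- THE WAY BACK -/
theorem fresh_back (h1 : c ≤ 1) {α : ℕ → Type} (U : ∀ k, (S.F k).Ω → α k) (X Y : S.L) (z : QS S) (y : Fin 3 → QS S)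
    {v : ℝ} (hv : v ≤ 1) {D : ℕ} {W : Sp} (p : Pj W (scl S c hc)) (V : W.L) (g : MvPolynomial (Fin 3) (QS W))
    (hg : g ∈ PK V) (hD : g.totalDegree ≤ D)
    (hI : I ((p.join (S := scl S c hc) U).p1.map V) ((p.join (S := scl S c hc) U).p2.map (sclL c hc X))
      ((p.join (S := scl S c hc) U).p2.map (sclL c hc Y)) = 0)
    (hz : (p.join (S := scl S c hc) U).p2.qs (qd c hc h1 z) -
      MvPolynomial.eval (fun i => (p.join (S := scl S c hc) U).p2.qs (qd c hc h1 (y i)))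
        (MvPolynomial.map (p.join (S := scl S c hc) U).p1.qs g) ∈ Id _ v) :
    ∃ (W' : Sp) (p' : Pj W' S) (V' : W'.L) (g' : MvPolynomial (Fin 3) (QS W')), g' ∈ PK V' ∧ g'.totalDegree ≤ D ∧
      I ((p'.join U).p1.map V') ((p'.join U).p2.map X) ((p'.join U).p2.map Y) = 0 ∧
      (p'.join U).p2.qs z - MvPolynomial.eval (fun i => (p'.join U).p2.qs (y i))
        (MvPolynomial.map (p'.join U).p1.qs g') ∈ Id _ (c * v) := by
  have hi := (one_le_inv₀ hc).mpr h1
  obtain ⟨g', e1, e2, e3⟩ := exists_lift c hc h1 hg hD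
  refine ⟨scl W c⁻¹ (inv_pos.mpr hc), pun c hc p, sclL c⁻¹ (inv_pos.mpr hc) V, g', e2, e3, ?_, ?_⟩
  · obtain ⟨Dp, hDp⟩ : ∃ Dp : AmD W (scl S c hc), Dp = p.join (S := scl S c hc) U := ⟨_, rfl⟩
    have k1 : ((pun c hc p).join U).p1.map (sclL c⁻¹ (inv_pos.mpr hc) V) =
        sclL c⁻¹ (inv_pos.mpr hc) ((p.join (S := scl S c hc) U).p1.map V) :=
      pscl_map c⁻¹ (inv_pos.mpr hc) (p.join (S := scl S c hc) U).p1 V
    have k2 : ∀ x : S.L, ((pun c hc p).join U).p2.map x =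
        sclL c⁻¹ (inv_pos.mpr hc) ((p.join (S := scl S c hc) U).p2.map (sclL c hc x)) := fun x =>
      pun_map c hc (p.join (S := scl S c hc) U).p2 x
    rw [k1, k2, k2]
    refine (I_sclL c⁻¹ (inv_pos.mpr hc) _ _ _).trans ?_
    rw [hI, zero_div]
  · have e4 : v / c⁻¹ = c * v := by field_simp
    rw [← e4]
    refine (qu_mem_Id (S := (p.join (S := scl S c hc) U).sp) c⁻¹ (inv_pos.mpr hc) hi hv).mp ?_
    have k2 : ∀ f : QS S, qu (S := (p.join (S := scl S c hc) U).sp) c⁻¹ (inv_pos.mpr hc) hi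
        (((pun c hc p).join U).p2.qs f) = (p.join (S := scl S c hc) U).p2.qs (qd c hc h1 f) := fun f =>
      pun_qd c hc (p.join (S := scl S c hc) U).p2 h1 f
    have k1 : ∀ f : QS (scl W c⁻¹ (inv_pos.mpr hc)), qu (S := (p.join (S := scl S c hc) U).sp) c⁻¹ (inv_pos.mpr hc) hi
        (((pun c hc p).join U).p1.qs f) = (p.join (S := scl S c hc) U).p1.qs (qu c⁻¹ (inv_pos.mpr hc) hi f) := fun f =>
      pscl_qu c⁻¹ (inv_pos.mpr hc) (p.join (S := scl S c hc) U).p1 hi f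
    have e5 : qu (S := (p.join (S := scl S c hc) U).sp) c⁻¹ (inv_pos.mpr hc) hi (((pun c hc p).join U).p2.qs z -
        MvPolynomial.eval (fun i => ((pun c hc p).join U).p2.qs (y i))
          (MvPolynomial.map ((pun c hc p).join U).p1.qs g')) =
        (p.join (S := scl S c hc) U).p2.qs (qd c hc h1 z) -
      MvPolynomial.eval (fun i => (p.join (S := scl S c hc) U).p2.qs (qd c hc h1 (y i)))
        (MvPolynomial.map (p.join (S := scl S c hc) U).p1.qs g) := by
      refine (map_sub _ _ _).trans ?_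
      refine congrArg₂ (· - ·) (k2 z) ?_
      rw [← e1, MvPolynomial.eval_map, MvPolynomial.eval_map, MvPolynomial.eval₂_map]
      refine (MvPolynomial.eval₂_comp_left (qu (S := (p.join (S := scl S c hc) U).sp) c⁻¹ (inv_pos.mpr hc) hi)
        ((pun c hc p).join U).p1.qs (fun i => ((pun c hc p).join U).p2.qs (y i)) g').trans ?_
      refine congrArg₂ (fun a b => MvPolynomial.eval₂ a b g') (RingHom.ext fun f => k1 f) (funext fun i => k2 (y i))
    exact e5 ▸ hz

end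

end Pool.Agent.Helper82.HS
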