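import Pool.Agent.Helper79.NF.Sheet
import Pool.Agent.Helper62.UR.W1

/-! HEIS, part 2: the thin parallelogram for the raw corner gives the sheet in fresh form. -/

set_option autoImplicit false

namespace Pool.Agent.Helper82.HS

open Finset Filter Topology Pool.Agent.Helper69.RK Pool.Agent.Helper31.EC

noncomputable section

open Sp QS Pool.Agent.Helper82.TP Pool.Agent.Helper79.NF
open Pool.Agent.Helper62.UR (coef_line)

variable {S : Sp}

/-- literal functions agree in a join -/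
theorem lit_join {W : Sp} (p : Pj W S) {α : ℕ → Type} {V : ∀ k, (S.F k).Ω → α k} {g : QS S} (hg : Lit V g) :
    (p.join V).p1.qs (p.qs g) = (p.join V).p2.qs g := by
  obtain ⟨G, rfl, hG⟩ := hg
  rw [Pj.qs_mk, Pj.qs_mk, Pj.qs_mk, mk_eq]
  apply TR.Te.ag
  refine ⟨fun _ _ => True, Typ_true, ?_⟩
  filter_upwards [hG] with k hk w hw _
  have h1 := ((p.join V).supp k w hw).1
  have h2 : (V k (p.π k w.1), Quotient.mk (S.F k).Z (p.π k w.1)) = (V k w.2, Quotient.mk (S.F k).Z w.2) := h1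
  rw [Prod.mk.injEq] at h2
  exact hk _ _ (p.supp k _ ((p.join V).p1.supp k w hw)) ((p.join V).p2.supp k w hw) (Quotient.exact h2.2) h2.1

/-- HEIS, part 2: the raw corner has a sheet in fresh form, for every literal variable `U` of the line -/
theorem fresh_of (H : HD0 S) {w ρ σ r1 : ℝ} {Sc : Set ℝ} {r0 rt ry z0 k0 k1 c : ℝ → QS S}
    (hc : HC0 H 2 w ρ σ r1 Sc r0 rt ry z0 k0 k1 c) {α : ℕ → Type} (U : ∀ k, (S.F k).Ω → α k) (hV : Bdd U)
    (tU : h (dg H.t 1) (io U) = 1) (lx : Lit U H.x) (la : Lit U H.a) (lF : Lit U H.F) (lc : Lit U H.cR)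
    (lv : Lit U H.v) (lz : Lit U H.az) (ha : 1 ≤ h (dg H.a 1) (dg H.x 1))
    (hx : ∀ (T : Sp) (p : Pj T S) (E : ∀ k, (T.F k).Ω → Prop) (hE : 0 < ul (T.pr E)) (r : ℝ), 0 < r → r ≤ 1 →
      0 < h (restL E hE (p.map (dg H.x r))) (restL E hE (p.map ⊥)))
    {th ti al be : QS S} (hth : dg th 1 = ⊥) (hti : dg ti 1 = ⊥) (hal : dg al 1 = ⊥) (hbe : dg be 1 = ⊥)
    (hu : ti * th = 1) (hF : H.F = be + al * H.x + th * H.a) {η s s2 v : ℝ} (hη : 0 < η)
    (hmm : TP.Mesh Sc σ η) (hS : Scl w σ r1 Sc η s s2 v) :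
    ∃ (V : S.L) (g : MvPolynomial (Fin 3) (QS S)), g ∈ PK V ∧ g.totalDegree ≤ 1 ∧
      I (((Pj.id S).join U).p1.map V) (((Pj.id S).join U).p2.map H.M) ⊥ = 0 ∧
      ((Pj.id S).join U).p2.qs H.z - MvPolynomial.eval
        (fun i => ((Pj.id S).join U).p2.qs ((![H.t, H.y, H.R] : Fin 3 → QS S) i))
        (MvPolynomial.map ((Pj.id S).join U).p1.qs g) ∈ Id _ v := by
  have hF' : (Pj.id S).qs H.F = be + al * (Pj.id S).qs H.x + th * (Pj.id S).qs H.a := by
    rw [Pj.id_qs, Pj.id_qs, Pj.id_qs]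
    exact hF
  have hn := nf hc (Pj.id S) hth hti hal hbe hu hF'
  obtain ⟨-, -, -, -, h5⟩ := hn.goal2 hη hmm hS
  obtain ⟨hs, hs2, -, -, hv0, -, hv2, -, -⟩ := hS
  have hv1 : v ≤ 1 := hv2.trans (hn.s_lt hs2).le
  -- the join
  obtain ⟨D, hD⟩ : ∃ D : AmD S S, D = (Pj.id S).join U := ⟨_, rfl⟩
  have hfst : ∀ {f : QS S}, Lit U f → D.p1.qs f = D.p2.qs f := by
    intro f hf
    have h2 := lit_join (Pj.id S) hf
    rw [Pj.id_qs] at h2
    rw [hD]
    exact h2
  have ex := hfst lx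
  have ea := hfst la
  have eF := hfst lF
  have ec := hfst lc
  have ev := hfst lv
  have ez := hfst lz
  obtain ⟨eth, eal, ebe⟩ := coef_line D.p1 D.p2 hth hal hbe hF ha hx ex ea eF
  have eti : D.p1.qs ti = D.p2.qs ti := by
    have u1 : D.p1.qs ti * D.p1.qs th = 1 := by rw [← map_mul, hu, map_one]
    have u2 : D.p2.qs ti * D.p2.qs th = 1 := by rw [← map_mul, hu, map_one]
    calc D.p1.qs ti = D.p1.qs ti * (D.p2.qs ti * D.p2.qs th) := by rw [u2, mul_one]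
      _ = D.p1.qs ti * D.p2.qs th * D.p2.qs ti := by ring
      _ = D.p1.qs ti * D.p1.qs th * D.p2.qs ti := by rw [eth]
      _ = D.p2.qs ti := by rw [u1, one_mul]
  -- fresh time
  have ht : ∀ Y : S.L, 1 ≤ h (D.p2.map (dg H.t 1)) (D.p1.map Y) := by
    intro Y
    have e1 := (Pj.id S).join_indep U hV Y (dg H.t 1)
    have e2 := (Pj.id S).join_common U hV
    rw [← hD, Pj.id_map] at e1 e2
    rw [I_zero_iff_h', e2, D.p2.h_map, tU] at e1
    rw [← e2] at e1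
    refine e1.ge.trans (h_anti ?_)
    exact le_sup_left
  have eaR : D.p1.qs (nfd H (Pj.id S) th ti al be).aR = D.p2.qs (nfd H (Pj.id S) th ti al be).aR := by
    rw [nf_aR hu hF', Pj.id_qs, Pj.id_qs]
    simp only [map_mul, map_sub]
    rw [eti, eal, ec, ea]
  have ea' : D.p1.qs (nfd H (Pj.id S) th ti al be).a = D.p2.qs (nfd H (Pj.id S) th ti al be).a := by
    rw [nf_a, Pj.id_qs]
    exact ea
  have ex' : D.p1.qs (nfd H (Pj.id S) th ti al be).x = D.p2.qs (nfd H (Pj.id S) th ti al be).x := by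
    show D.p1.qs ((Pj.id S).qs H.x) = D.p2.qs ((Pj.id S).qs H.x)
    rw [Pj.id_qs]
    exact ex
  have ev' : D.p1.qs (nfd H (Pj.id S) th ti al be).v = D.p2.qs (nfd H (Pj.id S) th ti al be).v := by
    show D.p1.qs ((Pj.id S).qs H.v) = D.p2.qs ((Pj.id S).qs H.v)
    rw [Pj.id_qs]
    exact ev
  have ez' : D.p1.qs (nfd H (Pj.id S) th ti al be).az = D.p2.qs (nfd H (Pj.id S) th ti al be).az := by
    have e1 : (nfd H (Pj.id S) th ti al be).az = H.az := by
      show (Pj.id S).qs H.z - (Pj.id S).qs H.t * (Pj.id S).qs H.v = H.z - H.t * H.v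
      rw [Pj.id_qs, Pj.id_qs, Pj.id_qs]
    rw [e1]
    exact ez
  have ht' : ∀ Y : S.L, 1 ≤ h (D.p2.map (dg (nfd H (Pj.id S) th ti al be).t 1)) (D.p1.map Y) := by
    intro Y
    have e1 : (nfd H (Pj.id S) th ti al be).t = H.t := Pj.id_qs _
    rw [e1]
    exact ht Y
  obtain ⟨g1, g2⟩ := h5 D.sp D.p1 D.p2 ex' ea' eaR ev' ez' ht'
  -- the label in raw coordinates
  have hM : (nfd H (Pj.id S) th ti al be).M = H.M := by
    rw [nf_M hth hti hal hbe hu, Pj.id_map]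
  have hX : FX z0 k0 k1 c s2 v ≤ FX (fun s => (Pj.id S).qs (z0 s))
      (fun s => (Pj.id S).qs (k0 s) + (Pj.id S).qs (c s) * be) (fun s => (Pj.id S).qs (k1 s) + (Pj.id S).qs (c s) * al)
      (fun s => (Pj.id S).qs (c s) * th) s2 v := by
    have h1 := nf_back (p := Pj.id S) (z0 := z0 s2) (k0 := k0 s2) (k1 := k1 s2) (c := c s2) hti hal hbe hu hv1
      (A := FX (fun s => (Pj.id S).qs (z0 s)) (fun s => (Pj.id S).qs (k0 s) + (Pj.id S).qs (c s) * be)
        (fun s => (Pj.id S).qs (k1 s) + (Pj.id S).qs (c s) * al) (fun s => (Pj.id S).qs (c s) * th) s2 v)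
      (by rw [Pj.id_map]; exact le_rfl)
    exact h1
  rw [hM] at g1
  have g1' : I (D.p1.map (FX z0 k0 k1 c s2 v)) (D.p2.map H.M) ⊥ = 0 :=
    I_zero_mono g1 (le_sup_of_le_left (D.p1.map_mono hX)) le_sup_left
  obtain ⟨a0, b0', d0⟩ := exists_round (z0 s2) hv0.le hv1
  obtain ⟨a1, b1, d1⟩ := exists_round (k0 s2) hv0.le hv1
  obtain ⟨a2, b2, d2⟩ := exists_round (k1 s2) hv0.le hv1
  obtain ⟨a3, b3, d3⟩ := exists_round (c s2) hv0.le hv1
  have q0 : dg (z0 s2) v ≤ FX z0 k0 k1 c s2 v := le_sup_left.trans (le_sup_left.trans le_sup_left)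
  have q1 : dg (k0 s2) v ≤ FX z0 k0 k1 c s2 v := le_sup_right.trans (le_sup_left.trans le_sup_left)
  have q2 : dg (k1 s2) v ≤ FX z0 k0 k1 c s2 v := le_sup_right.trans le_sup_left
  have q3 : dg (c s2) v ≤ FX z0 k0 k1 c s2 v := le_sup_right
  refine ⟨FX z0 k0 k1 c s2 v, MvPolynomial.C a0 + MvPolynomial.C a1 *
    MvPolynomial.X 0 + MvPolynomial.C a2 * MvPolynomial.X 1 + MvPolynomial.C a3 * MvPolynomial.X 2, ?_, ?_, ?_, ?_⟩
  · exact Subring.add_mem _ (Subring.add_mem _ (Subring.add_mem _ (C_mem (b0'.trans q0))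
      (Subring.mul_mem _ (C_mem (b1.trans q1)) (X_mem _ _)))
      (Subring.mul_mem _ (C_mem (b2.trans q2)) (X_mem _ _)))
      (Subring.mul_mem _ (C_mem (b3.trans q3)) (X_mem _ _))
  · have hm : ∀ (a : QS S) (i : Fin 3), (MvPolynomial.C a * MvPolynomial.X i : MvPolynomial (Fin 3) (QS S)).totalDegree
        ≤ 1 := by
      intro a i
      refine (MvPolynomial.totalDegree_mul _ _).trans ?_
      rw [MvPolynomial.totalDegree_C, zero_add]
      have h1 : (MvPolynomial.X i : MvPolynomial (Fin 3) (QS S)) = MvPolynomial.monomial (Finsupp.single i 1) 1 := rfl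
      rw [h1]
      refine (MvPolynomial.totalDegree_monomial_le _ _).trans ?_
      rw [Finsupp.sum_single_index rfl, id]
    refine (MvPolynomial.totalDegree_add _ _).trans (max_le ((MvPolynomial.totalDegree_add _ _).trans
      (max_le ((MvPolynomial.totalDegree_add _ _).trans (max_le ?_ (hm _ _))) (hm _ _))) (hm _ _))
    rw [MvPolynomial.totalDegree_C]
    exact Nat.zero_le _
  · rw [← hD]
    exact g1'
  · rw [← hD]
    have e1 : D.p2.qs H.z - MvPolynomial.eval (fun i => D.p2.qs ((![H.t, H.y, H.R] : Fin 3 → QS S) i))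
        (MvPolynomial.map D.p1.qs (MvPolynomial.C a0 + MvPolynomial.C a1 *
        MvPolynomial.X 0 + MvPolynomial.C a2 * MvPolynomial.X 1 + MvPolynomial.C a3 * MvPolynomial.X 2)) =
        (D.p2.qs H.z - (D.p1.qs (z0 s2) + D.p1.qs (k0 s2) * D.p2.qs H.t + D.p1.qs (k1 s2) * D.p2.qs H.y +
          D.p1.qs (c s2) * D.p2.qs H.R)) + D.p1.qs (z0 s2 - a0) + D.p2.qs H.t * D.p1.qs (k0 s2 - a1) +
          D.p2.qs H.y * D.p1.qs (k1 s2 - a2) + D.p2.qs H.R * D.p1.qs (c s2 - a3) := by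
      simp only [map_add, map_mul, map_sub, MvPolynomial.eval_C, MvPolynomial.eval_X, MvPolynomial.map_C,
        MvPolynomial.map_X]
      show D.p2.qs H.z - (D.p1.qs a0 + D.p1.qs a1 * D.p2.qs H.t + D.p1.qs a2 * D.p2.qs H.y +
        D.p1.qs a3 * D.p2.qs H.R) = _
      ring
    rw [e1]
    have g3 : D.p2.qs H.z - (D.p1.qs (z0 s2) + D.p1.qs (k0 s2) * D.p2.qs H.t + D.p1.qs (k1 s2) * D.p2.qs H.y +
        D.p1.qs (c s2) * D.p2.qs H.R) ∈ Id D.sp v := by
      have e2 : D.p2.qs H.z - (D.p1.qs (z0 s2) + D.p1.qs (k0 s2) * D.p2.qs H.t + D.p1.qs (k1 s2) * D.p2.qs H.y +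
          D.p1.qs (c s2) * D.p2.qs H.R) = D.p2.qs (nfd H (Pj.id S) th ti al be).z -
          (D.p1.qs ((Pj.id S).qs (z0 s2)) + D.p1.qs ((Pj.id S).qs (k0 s2) + (Pj.id S).qs (c s2) * be) *
            D.p2.qs (nfd H (Pj.id S) th ti al be).t + D.p1.qs ((Pj.id S).qs (k1 s2) + (Pj.id S).qs (c s2) * al) *
            D.p2.qs (nfd H (Pj.id S) th ti al be).y + D.p1.qs ((Pj.id S).qs (c s2) * th) *
            D.p2.qs (nfd H (Pj.id S) th ti al be).R) := by
        show _ = D.p2.qs ((Pj.id S).qs H.z) - (D.p1.qs ((Pj.id S).qs (z0 s2)) +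
          D.p1.qs ((Pj.id S).qs (k0 s2) + (Pj.id S).qs (c s2) * be) * D.p2.qs ((Pj.id S).qs H.t) +
          D.p1.qs ((Pj.id S).qs (k1 s2) + (Pj.id S).qs (c s2) * al) * D.p2.qs ((Pj.id S).qs H.y) +
          D.p1.qs ((Pj.id S).qs (c s2) * th) *
            D.p2.qs (ti * ((Pj.id S).qs H.R - be * (Pj.id S).qs H.t - al * (Pj.id S).qs H.y)))
        have u1 : D.p1.qs th * D.p2.qs ti = 1 := by
          rw [← eti, ← map_mul, mul_comm th ti, hu, map_one]
        simp only [Pj.id_qs, map_add, map_mul, map_sub]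
        rw [eal, ebe]
        linear_combination (D.p1.qs (c s2) * (D.p2.qs H.R - D.p2.qs be * D.p2.qs H.t - D.p2.qs al * D.p2.qs H.y)) * u1
      rw [e2]
      exact g2
    exact (Id D.sp v).add_mem ((Id D.sp v).add_mem ((Id D.sp v).add_mem ((Id D.sp v).add_mem g3 (Pj_mem_Id D.p1 d0))
      ((Id D.sp v).mul_mem_left _ (Pj_mem_Id D.p1 d1))) ((Id D.sp v).mul_mem_left _ (Pj_mem_Id D.p1 d2)))
      ((Id D.sp v).mul_mem_left _ (Pj_mem_Id D.p1 d3))

end

end Pool.Agent.Helper82.HS
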