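import Pool.Agent.Helper62.HS.Tr
import Pool.Agent.Helper82.HS.Out
import Pool.Agent.Helper82.HS.Back

/-! HEIS: from the normal form of the truncated corner to the slow sheet `OutZ`. -/

set_option autoImplicit false

namespace Pool.Agent.Helper82.HS

open Finset Filter Topology Pool.Agent.Helper69.RK Pool.Agent.Helper31.EC Pool.Agent.Helper82.TP
open Pool.Agent.Helper79.NF Pool.Agent.Helper31.NSB Pool.Agent.Helper62.UR Pool.Agent.Helper62.UT Pool.Agent.Helper62.HS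

noncomputable section

open Sp QS

/-- meshes of the truncated space -/
theorem mesh_scu {Sc : Set ℝ} {σ u σ' η : ℝ} (hd : Dns Sc σ) (hu : 0 < u) (hσ : u * σ' ≤ σ) (hη : 0 < η) :
    Pool.Agent.Helper82.TP.Mesh (Scu Sc u σ') σ' η := by
  intro a b ha hab hb
  have hlt : a < b := by linarith
  obtain ⟨s, hs, h3, h4⟩ := hd (u * a) (u * b) (mul_nonneg hu.le ha.le) (mul_lt_mul_of_pos_left hlt hu)
    ((mul_le_mul_of_nonneg_left hb hu.le).trans hσ)
  have e1 : u * (s / u) = s := by field_simp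
  have h6 : a < s / u := by
    rw [lt_div_iff₀ hu, mul_comm]
    exact h3
  have h7 : s / u < b := by
    rw [div_lt_iff₀ hu, mul_comm]
    exact h4
  exact ⟨s / u, ⟨by linarith, by linarith, by rw [e1]; exact hs⟩, by linarith, by linarith⟩

theorem lit_pair {S : Sp} {α β : ℕ → Type} {V : ∀ k, (S.F k).Ω → α k} (K : ∀ k, (S.F k).Ω → β k) {g : QS S}
    (hg : Lit V g) : Lit (fun k ω => (V k ω, K k ω)) g := by
  obtain ⟨G, rfl, hG⟩ := hg
  refine ⟨G, rfl, ?_⟩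
  filter_upwards [hG] with k a ω ω' c d e v
  exact a ω ω' c d e (congrArg Prod.fst v)

/-- the intercept of the base line is full over the direction -/
theorem full_a {S : Sp} {H : RD S} {f : FR S} {w1 w ρ : ℝ} {Sc : Set ℝ} (cc : CC H f w1 w ρ Sc) :
    1 ≤ h (dg H.a 1) (dg H.x 1) := by
  have h1 := (full_q0 cc).1
  have h2 : I (dg H.x 1) H.B ⊥ = 0 := by
    have h3 := cc.T1 0 cc.zero
    rw [cc.κ0, bot_sup_eq] at h3
    exact h3
  have h4 : I (dg H.y 1) (dg H.x 1) (dg H.t 1) = 0 := by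
    have hq : dg H.t 1 ⊔ dg H.y 1 ≤ H.B := le_sup_left.trans le_sup_left
    have h5 : I (dg H.x 1) (dg H.t 1 ⊔ dg H.y 1) ⊥ = 0 := I_zero_mono h2 le_sup_left (hq.trans le_sup_left)
    have h6 := I_chain (dg H.t 1) (dg H.y 1) (dg H.x 1) ⊥
    rw [sup_bot_eq, I_comm, h5] at h6
    have h7 := I_nonneg (dg H.t 1) (dg H.x 1) ⊥
    have h8 := I_nonneg (dg H.y 1) (dg H.x 1) (dg H.t 1)
    linarith
  rw [I_eq, h1] at h4
  have e1 : dg H.y 1 ≤ dg H.a 1 ⊔ (dg H.x 1 ⊔ dg H.t 1) := by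
    have e2 : H.y = H.a + H.t * H.x := by
      show H.y = H.y - H.t * H.x + H.t * H.x
      ring
    conv_lhs => rw [e2]
    exact dg_add_le' _ _ le_rfl le_sup_left (dg_mul_le' _ _ le_rfl (le_sup_right.trans le_sup_right)
      (le_sup_left.trans le_sup_right))
  have h5 := h_triangle (dg H.y 1) (dg H.a 1) (dg H.x 1 ⊔ dg H.t 1)
  rw [h_zero e1] at h5
  have h6 : h (dg H.a 1) (dg H.x 1 ⊔ dg H.t 1) ≤ h (dg H.a 1) (dg H.x 1) := h_anti le_sup_left
  linarith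

/-- the slow sheet -/
theorem outZ_of {S : Sp} {H : RD S} {f : FR S} {w ρ : ℝ} {Sc : Set ℝ} (cc : CC H f 2 w ρ Sc)
    {u r1 σ' η s s2 v : ℝ} (hu : 0 < u) (h1 : u ≤ 1) (hr1 : 0 < r1) (hr : r1 ≤ u) (hw : 2 < w)
    (hσ' : 0 < σ') (hwσ : w * σ' ≤ 1) (hsl : dg H.v r1 ≤ H.iso u ⊔ dg H.x u) (hη : 0 < η)
    (hmm : Pool.Agent.Helper82.TP.Mesh (Scu Sc u σ') σ' η)
    (hS : Pool.Agent.Helper82.TP.Scl w σ' (r1 / u) (Scu Sc u σ') η s s2 v) {th ti al be : QS (scl S u hu)}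
    (hth : dg th 1 = ⊥) (hti : dg ti 1 = ⊥) (hal : dg al 1 = ⊥) (hbe : dg be 1 = ⊥) (hi : ti * th = 1)
    (hF : (hsc H.toHD0 u hu h1).F = be + al * (hsc H.toHD0 u hu h1).x + th * (hsc H.toHD0 u hu h1).a) :
    OutZ H 1 u (u * v) := by
  obtain ⟨lx, la, lF, lc, lv, lz⟩ := cc.lA
  have hc := hc0 cc cc.nest hu h1 hr1 hr hw hw.le hσ' hwσ hsl
  obtain ⟨U, hU⟩ : ∃ U, U = VAs H 0 := ⟨_, rfl⟩
  have bU : Bdd U := by
    rw [hU]
    exact cc.bA.pair (cc.bdd 0 cc.zero)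
  have iU : io U = H.L := by
    rw [hU]
    show io (fun k ω => (H.VA k ω, H.K 0 k ω)) = H.L
    rw [io_pair cc.bA (cc.bdd 0 cc.zero), cc.iA]
    have e1 : io (H.K 0) = ⊥ := cc.κ0
    rw [e1, sup_bot_eq]
  have lU : ∀ {g : QS S}, Lit H.VA g → Lit (S := scl S u hu) U (qd u hu h1 g) := by
    intro g hg
    rw [hU]
    exact lit_qd u hu h1 (lit_pair (H.K 0) hg)
  have tU : h (dg (hsc H.toHD0 u hu h1).t 1) (io (S := scl S u hu) U) = 1 := by
    apply le_antisymm (h_dg_le_one _ _)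
    rw [← sclL_io, iU]
    show 1 ≤ h (dg (qd u hu h1 H.t) 1) _
    rw [hsc_dg1, h_sclL, le_div_iff₀ hu, one_mul]
    exact h_lv _ h1 cc.time.ge
  have ha : 1 ≤ h (dg (hsc H.toHD0 u hu h1).a 1) (dg (hsc H.toHD0 u hu h1).x 1) := by
    rw [hsc_a]
    show 1 ≤ h _ (dg (qd u hu h1 H.x) 1)
    rw [hsc_dg1, hsc_dg1, h_sclL, le_div_iff₀ hu, one_mul]
    exact (h_lv _ h1 (full_a cc)).trans (h_anti (dg_mono _ h1))
  have hx : ∀ (T : Sp) (p : Pj T (scl S u hu)) (E : ∀ k, (T.F k).Ω → Prop) (hE : 0 < ul (T.pr E)) (r : ℝ), 0 < r →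
      r ≤ 1 → 0 < h (restL E hE (p.map (dg (hsc H.toHD0 u hu h1).x r))) (restL E hE (p.map ⊥)) := by
    intro T p E hE r h0 h2
    exact (hc.rich T p E hE r h0 h2).trans_le (h_anti (restL_mono E hE (p.map_mono bot_le)))
  have la' : Lit (S := scl S u hu) U (hsc H.toHD0 u hu h1).a := by
    rw [hsc_a]
    exact lU la
  have lc' : Lit (S := scl S u hu) U (hsc H.toHD0 u hu h1).cR := by
    rw [hsc_cR]
    exact lU lc
  have lz' : Lit (S := scl S u hu) U (hsc H.toHD0 u hu h1).az := by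
    rw [hsc_az]
    exact lU lz
  obtain ⟨V, g, hg, hD, hI, hz⟩ := fresh_of _ hc U ((scl_Bdd u hu).mpr bU) tU (lU lx) la' (lU lF) lc' (lU lv) lz' ha hx
    hth hti hal hbe hi hF hη hmm hS
  obtain ⟨-, -, -, -, hv0, -, -, -, hv1⟩ := hS
  have hv : v ≤ 1 := hv1.trans ((div_le_one hu).mpr hr)
  refine ⟨mul_pos hu hv0, ?_, h1, ?_⟩
  · calc u * v ≤ u * 1 := mul_le_mul_of_nonneg_left hv hu.le
      _ = u := mul_one u
  · rw [hsc_M] at hI
    have e0 : sclL u hu (H.κ 0) = ⊥ := by rw [cc.κ0, sclL_bot]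
    have := fresh_back u hu h1 U (H.iso u) (H.κ 0) H.z ![H.t, H.y, H.R] hv (Pj.id (scl S u hu)) V g hg hD ?_ ?_
    · rw [hU] at this
      exact this
    · rw [e0, Pj.map_bot]
      exact hI
    · have e1 : (fun i => ((Pj.id (scl S u hu)).join (S := scl S u hu) U).p2.qs
          ((![(hsc H.toHD0 u hu h1).t, (hsc H.toHD0 u hu h1).y, (hsc H.toHD0 u hu h1).R] : Fin 3 → QS (scl S u hu)) i)) =
          fun i => ((Pj.id (scl S u hu)).join (S := scl S u hu) U).p2.qs (qd u hu h1 ((![H.t, H.y, H.R] : Fin 3 → QS S) i)) := by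
        funext i
        fin_cases i <;> rfl
      rw [e1] at hz
      exact hz

end

end Pool.Agent.Helper82.HS
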