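import Pool.Agent.Helper62.HS.Main
import Pool.Agent.Helper82.HS.Fin

/-! ROW B_HEIS: the second corner has a slow sheet. -/

set_option autoImplicit false

namespace Pool.Agent.Helper82.HS

open Finset Filter Topology Pool.Agent.Helper69.RK Pool.Agent.Helper31.EC Pool.Agent.Helper82.TP
open Pool.Agent.Helper79.NF Pool.Agent.Helper31.NSB Pool.Agent.Helper62.UR Pool.Agent.Helper62.UT Pool.Agent.Helper62.HS

noncomputable section

open Sp QS

/-- the Heisenberg case -/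
theorem heis_two {S : Sp} {H : RD S} {f : FR S} {w1 w ρ σ u r1 : ℝ} {Sc : Set ℝ} (ht : HT H f w1 w ρ σ u r1 Sc)
    (e2 : w1 = 2) (hw : 2 < w) {hu : 0 < u} {h1 : u ≤ 1} {th ti al be : QS (scl S u hu)} (hth : dg th 1 = ⊥)
    (hti : dg ti 1 = ⊥) (hal : dg al 1 = ⊥) (hbe : dg be 1 = ⊥) (hi : ti * th = 1)
    (hF : (hsc H.toHD0 u hu h1).F = be + al * (hsc H.toHD0 u hu h1).x + th * (hsc H.toHD0 u hu h1).a) :
    ∃ m v : ℝ, OutZ H 1 m v := by
  subst e2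
  have hw0 : 0 < w := by linarith
  obtain ⟨σ', hσ'⟩ : ∃ σ' : ℝ, σ' = min (σ / u) (1 / w) := ⟨_, rfl⟩
  have p1 : 0 < σ' := by rw [hσ']; exact lt_min (div_pos ht.hσ hu) (div_pos one_pos hw0)
  have p2 : u * σ' ≤ σ := by
    have : σ' ≤ σ / u := by rw [hσ']; exact min_le_left _ _
    rwa [le_div_iff₀ hu, mul_comm] at this
  have p3 : w * σ' ≤ 1 := by
    have : σ' ≤ 1 / w := by rw [hσ']; exact min_le_right _ _
    rwa [le_div_iff₀ hw0, mul_comm] at this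
  obtain ⟨η, hη, hs⟩ := exists_scl (r1 := r1 / u) hw p1 (div_pos ht.hr1 hu)
  have hm := mesh_scu ht.dns hu p2 hη
  obtain ⟨s, s2, v, hS⟩ := hs _ hm
  exact ⟨u, u * v, outZ_of ht.cc hu h1 ht.hr1 ht.hr hw p1 p3 ht.slope hη hm hS hth hti hal hbe hi hF⟩

/-- **ROW B_HEIS** -/
theorem st_heis : ST_HEIS := by
  intro S H f w1 w ρ σ u r1 Sc ht
  rcases ht_main ht with h | ⟨e2, hw, hu, h1, th, ti, al, be, a1, a2, a3, a4, a5, a6⟩
  · exact ⟨r1, r1, h⟩
  · exact heis_two ht e2 hw a1 a2 a3 a4 a5 a6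

end

end Pool.Agent.Helper82.HS
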