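import Pool.Agent.Helper95.HS.Stmts
import Pool.Agent.Helper82.LN.VIR

/-!
# HS, row VIRX: lower bound of the virial, powers of `d`
-/

set_option autoImplicit false

namespace Pool.Agent.Helper82.HS

open MeasureTheory Filter Pool.Agent.Helper95.PW Pool.Agent.Helper95.LN Pool.Agent.Helper95.HS
open Pool.Agent.Helper82.LN

theorem vx_T1 (h4 : ST_KK) {n M : ℕ} (X : Fin M → R3) (d A : ℝ) (hd : 0 < d) (hA : 0 ≤ A)
    (hS : Sep X d) (g : R3 → ℝ) (hgs : ContDiff ℝ (⊤ : ℕ∞) g)
    (hg2 : ∀ (y : R3) (ξ : Fin 3 → ℝ),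
      -(A * ∑ i, ξ i ^ 2) ≤ ∑ i, ∑ l, pd i (pd l g) y * ξ i * ξ l)
    (x : Cf n) (hx : ∀ k l, k ≠ l → nr (x k - x l) ≠ 0) :
    -(A * (Rem (d / 8) x + 16 / d * ∑ i, cnt X (3 / 2 * d) x i ^ 2)) ≤
      ∑ k, ∑ l, if k < l then (∑ i, ci X (3 / 2 * d) x i k * ci X (3 / 2 * d) x i l) *
        ((∑ m, (pd m g (x k) - pd m g (x l)) * (x k m - x l m)) / nr (x k - x l) ^ 3) else 0 := by
  have hN : ∑ k, ∑ l, ∑ i, ci X (3 / 2 * d) x i k * ci X (3 / 2 * d) x i l =
      ∑ i, cnt X (3 / 2 * d) x i ^ 2 := by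
    have h1 : ∀ i, cnt X (3 / 2 * d) x i ^ 2 =
        ∑ k, ∑ l, ci X (3 / 2 * d) x i k * ci X (3 / 2 * d) x i l := by
      intro i
      rw [pow_two, ← Finset.sum_mul_sum]
      rfl
    simp_rw [h1]
    rw [Finset.sum_comm]
    rw [Finset.sum_comm]
    have h2 : ∀ k, ∑ l, ∑ i, ci X (3 / 2 * d) x i k * ci X (3 / 2 * d) x i l =
        ∑ i, ∑ l, ci X (3 / 2 * d) x i k * ci X (3 / 2 * d) x i l := fun k => Finset.sum_comm
    rw [Finset.sum_congr rfl fun k _ => h2 k, Finset.sum_comm]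
  rw [← hN]
  unfold Rem
  rw [Finset.mul_sum, ← Finset.sum_add_distrib, Finset.mul_sum, ← Finset.sum_neg_distrib]
  refine Finset.sum_le_sum fun k _ => ?_
  rw [Finset.mul_sum, ← Finset.sum_add_distrib, Finset.mul_sum, ← Finset.sum_neg_distrib]
  refine Finset.sum_le_sum fun l _ => ?_
  have hN0 := ci_N_nn X d x k l
  have hN1 := ci_le1 X d hd hS x k l
  set N := ∑ i, ci X (3 / 2 * d) x i k * ci X (3 / 2 * d) x i l with hNdef
  by_cases hkl : k < l
  · rw [if_pos hkl, if_pos hkl]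
    have hr0 := hx k l hkl.ne
    have hr : 0 < nr (x k - x l) := lt_of_le_of_ne (vir_nn _) (Ne.symm hr0)
    set r := nr (x k - x l) with hrdef
    obtain ⟨-, hK2, hK3, hK4⟩ := h4 (d / 8) (x k - x l) (by positivity)
    have hK2' := hK2 hr0
    have e16 : 2 / (d / 8) = 16 / d := by
      field_simp
      norm_num
    rw [e16] at hK4
    have hP : -(A * (1 / r)) ≤
        (∑ m, (pd m g (x k) - pd m g (x l)) * (x k m - x l m)) / r ^ 3 := by
      rw [le_div_iff₀ (by positivity)]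
      have h5 := repl_mono hgs hg2 (x k) (x l)
      have h6 : ∑ i, (x k i - x l i) ^ 2 = r ^ 2 := by
        rw [hrdef, vir_sq]
        rfl
      rw [h6] at h5
      calc -(A * (1 / r)) * r ^ 3 = -(A * r ^ 2) := by
            field_simp
        _ ≤ _ := h5
    have h7 : N * -(A * (1 / r)) ≤
        N * ((∑ m, (pd m g (x k) - pd m g (x l)) * (x k m - x l m)) / r ^ 3) :=
      mul_le_mul_of_nonneg_left hP hN0
    refine le_trans ?_ h7
    have h8 : N * (1 / r) ≤ 1 / r - Kf (d / 8) (x k - x l) + 16 / d * N := by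
      have h9 : N * (1 / r - Kf (d / 8) (x k - x l)) ≤
          1 * (1 / r - Kf (d / 8) (x k - x l)) :=
        mul_le_mul_of_nonneg_right hN1 (by linarith)
      have h10 : N * Kf (d / 8) (x k - x l) ≤ N * (16 / d) :=
        mul_le_mul_of_nonneg_left hK4 hN0
      nlinarith
    nlinarith
  · rw [if_neg hkl, if_neg hkl]
    have : 0 ≤ A * (0 + 16 / d * N) := by positivity
    linarith

theorem vx_T2 {n M : ℕ} (X : Fin M → R3) (Z : Fin M → ℝ) (d A : ℝ) (hd : 0 < d) (hA : 1 ≤ A)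
    (hS : Sep X d) (g : R3 → ℝ) (hg : ∀ i y, (∀ j, d ≤ nr (y - X j)) → pd i g y = 0)
    (hg1 : ∀ i y, |pd i g y| ≤ A) (x : Cf n) (e : Fin M → ℝ)
    (he : ∀ i m y, nr (y - X i) ≤ d → |farE d X Z x i m y| ≤ e i) :
    -(3 / 2 * A * ((∑ i, cnt X (3 / 2 * d) x i ^ 2) / d ^ 2 + d ^ 2 * ∑ i, e i ^ 2)) ≤
      ∑ k, ∑ i, ci X (3 / 2 * d) x i k * ∑ m, pd m g (x k) * farE d X Z x i m (x k) := by
  have h1 : ∀ k i, -(3 * A * (ci X (3 / 2 * d) x i k * e i)) ≤
      ci X (3 / 2 * d) x i k * ∑ m, pd m g (x k) * farE d X Z x i m (x k) := by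
    intro k i
    by_cases hc : nr (x k - X i) < 3 / 2 * d
    · have hc1 : ci X (3 / 2 * d) x i k = 1 := by
        unfold ci
        rw [if_pos hc]
      rw [hc1, one_mul, one_mul]
      have he0 : 0 ≤ e i := by
        have h0 : nr (X i - X i) ≤ d := by
          rw [sub_self]
          have : nr (0 : R3) = 0 := by
            unfold nr
            simp
          rw [this]
          exact hd.le
        exact (abs_nonneg _).trans (he i 0 (X i) h0)
      by_cases hn : nr (x k - X i) < d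
      · have h2 : ∀ m, -(A * e i) ≤ pd m g (x k) * farE d X Z x i m (x k) := by
          intro m
          have h3 : |pd m g (x k) * farE d X Z x i m (x k)| ≤ A * e i := by
            rw [abs_mul]
            exact mul_le_mul (hg1 m _) (he i m _ hn.le) (abs_nonneg _) (by linarith)
          exact (abs_le.1 h3).1
        calc -(3 * A * e i) = ∑ _m : Fin 3, -(A * e i) := by
              rw [Fin.sum_univ_three]; ring
          _ ≤ _ := Finset.sum_le_sum fun m _ => h2 m
      · have h4 : ∀ m, pd m g (x k) = 0 := by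
          intro m
          apply hg
          intro j
          by_cases hj : j = i
          · rw [hj]; exact not_lt.1 hn
          · have h5 := hS i j (Ne.symm hj)
            have h6 := vir_tri (X i) (X j) (x k)
            linarith
        simp only [h4, zero_mul, Finset.sum_const_zero]
        have : 0 ≤ 3 * A * e i := by positivity
        linarith
    · have hc0 : ci X (3 / 2 * d) x i k = 0 := by
        unfold ci
        rw [if_neg hc]
      rw [hc0, zero_mul, zero_mul, mul_zero, neg_zero]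
  have h2 : ∑ k, ∑ i, -(3 * A * (ci X (3 / 2 * d) x i k * e i)) =
      -(3 * A * ∑ i, cnt X (3 / 2 * d) x i * e i) := by
    rw [Finset.sum_comm, Finset.mul_sum, ← Finset.sum_neg_distrib]
    refine Finset.sum_congr rfl fun i _ => ?_
    have : cnt X (3 / 2 * d) x i = ∑ k, ci X (3 / 2 * d) x i k := rfl
    rw [this, Finset.sum_mul, Finset.mul_sum, ← Finset.sum_neg_distrib]
  have h3 : ∑ i, cnt X (3 / 2 * d) x i * e i ≤
      1 / 2 * ((∑ i, cnt X (3 / 2 * d) x i ^ 2) / d ^ 2 + d ^ 2 * ∑ i, e i ^ 2) := by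
    rw [Finset.sum_div, Finset.mul_sum, ← Finset.sum_add_distrib, Finset.mul_sum]
    refine Finset.sum_le_sum fun i _ => ?_
    have h4 : cnt X (3 / 2 * d) x i * e i = (cnt X (3 / 2 * d) x i / d) * (d * e i) := by
      field_simp
    have h5 : cnt X (3 / 2 * d) x i ^ 2 / d ^ 2 = (cnt X (3 / 2 * d) x i / d) ^ 2 := by
      rw [div_pow]
    rw [h4, h5]
    nlinarith [sq_nonneg (cnt X (3 / 2 * d) x i / d - d * e i)]
  calc -(3 / 2 * A * ((∑ i, cnt X (3 / 2 * d) x i ^ 2) / d ^ 2 + d ^ 2 * ∑ i, e i ^ 2))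
      ≤ -(3 * A * ∑ i, cnt X (3 / 2 * d) x i * e i) := by
        have h6 := mul_le_mul_of_nonneg_left h3 (show 0 ≤ 3 * A by linarith)
        linarith
    _ = ∑ k, ∑ i, -(3 * A * (ci X (3 / 2 * d) x i k * e i)) := h2.symm
    _ ≤ _ := Finset.sum_le_sum fun k _ => Finset.sum_le_sum fun i _ => h1 k i

theorem vx_T3 {n M : ℕ} (X : Fin M → R3) (Z : Fin M → ℝ) (d A : ℝ) (hd : 1 ≤ d)
    (hA : 1 ≤ A) (hS : Sep X d) (hZ : ∀ j, Z j = 1) (g : R3 → ℝ)
    (hg : ∀ i y, (∀ j, d ≤ nr (y - X j)) → pd i g y = 0)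
    (hg1 : ∀ i y, |pd i g y| ≤ A)
    (hg3 : ∀ j y, nr (y - X j) < 7 / 10 * d → ∑ i, pd i g y * (y i - X j i) ≤ nr (y - X j))
    (x : Cf n) (hx : ∀ k j, nr (x k - X j) ≠ 0) :
    ∑ k, ∑ i, ci X (3 / 2 * d) x i k * (Z i * ∑ m, pd m g (x k) *
        ((x k m - X i m) / nr (x k - X i) ^ 3)) ≤ (∑ k, near2 X d (x k)) + 7 * A / d * n := by
  have hd0 : 0 < d := by linarith
  have hsum : ∑ _k : Fin n, 7 * A / d = 7 * A / d * n := by
    rw [Finset.sum_const, nsmul_eq_mul, Finset.card_univ, Fintype.card_fin, mul_comm]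
  rw [← hsum, ← Finset.sum_add_distrib]
  refine Finset.sum_le_sum fun k _ => ?_
  have hc1 := ci_le1 X d hd0 hS x k k
  simp only [ci_sq] at hc1
  have hAd : 0 ≤ 7 * A / d := by positivity
  have hle : 7 * A / d * ∑ i, ci X (3 / 2 * d) x i k ≤ 7 * A / d := by
    calc 7 * A / d * ∑ i, ci X (3 / 2 * d) x i k ≤ 7 * A / d * 1 :=
          mul_le_mul_of_nonneg_left hc1 hAd
      _ = 7 * A / d := mul_one _
  refine le_trans ?_ (add_le_add_right hle _)
  unfold near2
  rw [Finset.mul_sum, ← Finset.sum_add_distrib]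
  refine Finset.sum_le_sum fun i _ => ?_
  rw [hZ i, one_mul]
  by_cases hn : nr (x k - X i) < d
  · rw [if_pos hn]
    have hc1 : ci X (3 / 2 * d) x i k = 1 := by
      unfold ci
      rw [if_pos (by linarith)]
    rw [hc1, one_mul, mul_one]
    have hr : 0 < nr (x k - X i) := lt_of_le_of_ne (vir_nn _) (Ne.symm (hx k i))
    by_cases h7 : nr (x k - X i) < 7 / 10 * d
    · have h8 := hg3 i (x k) h7
      set r := nr (x k - X i) with hrdef
      have h9 : ∑ m, pd m g (x k) * ((x k m - X i m) / r ^ 3) =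
          (∑ m, pd m g (x k) * (x k m - X i m)) / r ^ 3 := by
        rw [Finset.sum_div]
        refine Finset.sum_congr rfl fun m _ => ?_
        rw [mul_div_assoc]
      rw [h9]
      have h10 : (∑ m, pd m g (x k) * (x k m - X i m)) / r ^ 3 ≤ r / r ^ 3 :=
        div_le_div_of_nonneg_right h8 (by positivity)
      have h11 : r / r ^ 3 = 1 / r ^ 2 := by
        field_simp
      rw [h11] at h10
      linarith
    · push Not at h7
      set r := nr (x k - X i) with hrdef
      have h1 : ∀ m, pd m g (x k) * ((x k m - X i m) / r ^ 3) ≤ A * (1 / r ^ 2) := by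
        intro m
        have h2 : |(x k m - X i m) / r ^ 3| ≤ 1 / r ^ 2 := by
          rw [abs_div, abs_of_pos (show 0 < r ^ 3 by positivity), div_le_div_iff₀ (by positivity)
            (by positivity)]
          have h3 : |x k m - X i m| ≤ r := vir_abs (x k - X i) m
          calc |x k m - X i m| * r ^ 2 ≤ r * r ^ 2 := mul_le_mul_of_nonneg_right h3 (by positivity)
            _ = 1 * r ^ 3 := by ring
        calc pd m g (x k) * ((x k m - X i m) / r ^ 3)
            ≤ |pd m g (x k) * ((x k m - X i m) / r ^ 3)| := le_abs_self _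
          _ = |pd m g (x k)| * |(x k m - X i m) / r ^ 3| := abs_mul _ _
          _ ≤ A * (1 / r ^ 2) := mul_le_mul (hg1 m _) h2 (abs_nonneg _) (by linarith)
      have h4 : ∑ m, pd m g (x k) * ((x k m - X i m) / r ^ 3) ≤ 3 * A * (1 / r ^ 2) := by
        calc ∑ m, pd m g (x k) * ((x k m - X i m) / r ^ 3) ≤ ∑ _m : Fin 3, A * (1 / r ^ 2) :=
              Finset.sum_le_sum fun m _ => h1 m
          _ = 3 * A * (1 / r ^ 2) := by
              rw [Fin.sum_univ_three]; ring
      have h5 : 3 * A * (1 / r ^ 2) ≤ 7 * A / d := by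
        rw [mul_one_div, div_le_div_iff₀ (by positivity) hd0]
        have h6 : (7 / 10 * d) ^ 2 ≤ r ^ 2 := by
          apply pow_le_pow_left₀ (by positivity) h7
        have h8 : d ≤ d ^ 2 := by nlinarith
        have h9 : 3 * d ≤ 7 * r ^ 2 := by nlinarith
        have hA0 : 0 ≤ A := by linarith
        nlinarith [mul_le_mul_of_nonneg_left h9 hA0]
      have h6 : 0 ≤ 1 / r ^ 2 := by positivity
      linarith
  · rw [if_neg hn, zero_add]
    have hnn : 0 ≤ 7 * A / d * ci X (3 / 2 * d) x i k := mul_nonneg hAd (ci_nn _ _ _ _ _)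
    refine le_trans (le_of_eq ?_) hnn
    by_cases hc : nr (x k - X i) < 3 / 2 * d
    · have h4 : ∀ m, pd m g (x k) = 0 := by
        intro m
        apply hg
        intro j
        by_cases hj : j = i
        · rw [hj]; exact not_lt.1 hn
        · have h5 := hS i j (Ne.symm hj)
          have h6 := vir_tri (X i) (X j) (x k)
          linarith
      simp only [h4, zero_mul, Finset.sum_const_zero, mul_zero]
    · have hc0 : ci X (3 / 2 * d) x i k = 0 := by
        unfold ci
        rw [if_neg hc]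
      rw [hc0, zero_mul]

theorem VIRX (h1 : ST_NBX) (h2 : ST_FFX) (h4 : ST_KK) : ST_VIRX := by
  obtain ⟨C2, hC2, hNB⟩ := h1
  obtain ⟨C3, hC3, hFF⟩ := h2
  refine ⟨1 / 2 + 8 * C2 + 3 / 4 * (C2 + C3) + 4, by positivity, ?_⟩
  intro d A n M X Z g x hd hA hS hN hZ hgs hg0 hg1 hg2 hg3 hD
  have hd0 : 0 < d := by linarith
  have hA0 : 0 ≤ A := by linarith
  set C : ℝ := 1 / 2 + 8 * C2 + 3 / 4 * (C2 + C3) + 4 with hC
  have hMn : (M : ℝ) = n := by
    have h5 : ∑ j, Z j = (n : ℝ) := hN.2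
    simp only [hZ] at h5
    simpa using h5
  obtain ⟨e, he, hesum⟩ := hFF d n M X Z x hd hS hZ
  have hcnt := hNB d n M X Z x hd hS hZ
  have hDn := dn_nn (d / 8) X Z x
  have hRem : 0 ≤ Rem (d / 8) x := by
    unfold Rem
    refine Finset.sum_nonneg fun k _ => Finset.sum_nonneg fun l _ => ?_
    split_ifs with hkl
    · obtain ⟨-, hK2, -, -⟩ := h4 (d / 8) (x k - x l) (by positivity)
      have := hK2 (hD.1 k l hkl.ne)
      linarith
    · exact le_rfl
  have hT1 := vx_T1 h4 X d (A / d) hd0 (by positivity) hS g hgs hg2 x hD.1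
  have hT2 := vx_T2 X Z d A hd0 hA hS g hg0 hg1 x e he
  have hT3 := vx_T3 X Z d A hd hA hS hZ g hg0 hg1 hg3 x hD.2
  rw [vir_split X Z d hd0 hS g hg0 x]
  set T1 := ∑ k, ∑ l, if k < l then (∑ i, ci X (3 / 2 * d) x i k * ci X (3 / 2 * d) x i l) *
        ((∑ m, (pd m g (x k) - pd m g (x l)) * (x k m - x l m)) / nr (x k - x l) ^ 3) else 0
  set T2 := ∑ k, ∑ i, ci X (3 / 2 * d) x i k * ∑ m, pd m g (x k) * farE d X Z x i m (x k)
  set T3 := ∑ k, ∑ i, ci X (3 / 2 * d) x i k * (Z i * ∑ m, pd m g (x k) *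
        ((x k m - X i m) / nr (x k - X i) ^ 3))
  set S2 := ∑ k, near2 X d (x k)
  set R := Rem (d / 8) x
  set Q := ∑ i, cnt X (3 / 2 * d) x i ^ 2
  set E := ∑ i, e i ^ 2
  set D := Dn (d / 8) X Z x
  have hn0 : (0 : ℝ) ≤ n := Nat.cast_nonneg n
  rw [hMn] at hcnt hesum
  set a : ℝ := A / d with ha
  have ha0 : 0 ≤ a := by positivity
  have hAa : A = a * d := by
    rw [ha]; field_simp
  -- the near pairs
  have hq1 : 16 / d * Q ≤ 16 * (C2 * (n + D)) := by
    rw [div_mul_eq_mul_div, div_le_iff₀ hd0]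
    have h5 : C2 * (n + d * D) ≤ C2 * (n + D) * d := by
      have : n + d * D ≤ (n + D) * d := by nlinarith
      calc C2 * (n + d * D) ≤ C2 * ((n + D) * d) := mul_le_mul_of_nonneg_left this hC2.le
        _ = _ := by ring
    linarith
  have hq2 : Q / d ^ 2 ≤ C2 * (n + D) / d := by
    rw [div_le_div_iff₀ (by positivity) hd0]
    have h5 : n + d * D ≤ (n + D) * d := by nlinarith
    calc Q * d ≤ C2 * (n + d * D) * d := mul_le_mul_of_nonneg_right hcnt hd0.le
      _ ≤ C2 * ((n + D) * d) * d := by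
          apply mul_le_mul_of_nonneg_right _ hd0.le
          exact mul_le_mul_of_nonneg_left h5 hC2.le
      _ = C2 * (n + D) * d ^ 2 := by ring
  have he2 : d ^ 2 * E ≤ C3 * (n + D) / d := by
    rw [le_div_iff₀ hd0]
    have h5 : n / d ^ 4 + D / d ^ 3 ≤ (n + D) / d ^ 3 := by
      rw [add_div]
      have h6 : (n : ℝ) / d ^ 4 ≤ n / d ^ 3 := by
        apply div_le_div_of_nonneg_left hn0 (by positivity)
        apply pow_le_pow_right₀ hd (by norm_num)
      linarith
    calc d ^ 2 * E * d = d ^ 3 * E := by ring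
      _ ≤ d ^ 3 * (C3 * ((n + D) / d ^ 3)) := by
          apply mul_le_mul_of_nonneg_left _ (by positivity)
          exact hesum.trans (mul_le_mul_of_nonneg_left h5 hC3.le)
      _ = C3 * (n + D) := by
          field_simp
  have h5 : 3 / 2 * A * (Q / d ^ 2 + d ^ 2 * E) ≤ 3 / 2 * a * ((C2 + C3) * (n + D)) := by
    have h6 : Q / d ^ 2 + d ^ 2 * E ≤ (C2 + C3) * (n + D) / d := by
      have : (C2 + C3) * (n + D) / d = C2 * (n + D) / d + C3 * (n + D) / d := by ring
      linarith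
    calc 3 / 2 * A * (Q / d ^ 2 + d ^ 2 * E)
        ≤ 3 / 2 * A * ((C2 + C3) * (n + D) / d) :=
          mul_le_mul_of_nonneg_left h6 (by positivity)
      _ = 3 / 2 * a * ((C2 + C3) * (n + D)) := by
          rw [ha]; ring
  have h6 : a * (R + 16 / d * Q) ≤ a * (R + 16 * (C2 * (n + D))) :=
    mul_le_mul_of_nonneg_left (by linarith) ha0
  have h7 : 7 * A / d * n = 7 * a * n := by
    rw [ha]; ring
  have h8 : C * A / d * (n + D + R) = C * a * (n + D + R) := by
    rw [ha]; ring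
  rw [h8]
  rw [h7] at hT3
  have h9 : 0 ≤ a * n := by positivity
  have h10 : 0 ≤ a * D := by positivity
  have h11 : 0 ≤ a * R := by positivity
  have h12 : 0 ≤ C2 * (a * n) := by positivity
  have h13 : 0 ≤ C2 * (a * D) := by positivity
  have h14 : 0 ≤ C2 * (a * R) := by positivity
  have h15 : 0 ≤ C3 * (a * n) := by positivity
  have h16 : 0 ≤ C3 * (a * D) := by positivity
  have h17 : 0 ≤ C3 * (a * R) := by positivity
  rw [hC]
  nlinarith

end Pool.Agent.Helper82.HS
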